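import Pool.Agent.Helper97.LPP.Mgf
import Pool.Agent.Helper36.LPP.Real4

/-! LPP-12: on the conditioned event the passage time is linear along the diagonal. -/

open MeasureTheory ProbabilityTheory Filter Topology
open scoped ENNReal

namespace Helper97.LPP

variable {Ω : Type*} [MeasurableSpace Ω] {P : Measure Ω} [IsProbabilityMeasure P]
  {X : ℕ × ℕ → Ω → ℝ}

/-- the passage time from `q` to `p` without the weight of `q` -/
noncomputable def h79R (x : ℕ × ℕ → ℝ) (q p : ℕ × ℕ) : ℝ := lp x q p - x q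

theorem h79R_measurable (q p : ℕ × ℕ) : Measurable (fun x : ℕ × ℕ → ℝ => h79R x q p) :=
  (lp_measurable q p).sub (measurable_pi_apply q)

theorem h79R_local {q p : ℕ × ℕ} (h : q ≤ p) :
    Local ((Finset.Icc q p).erase q) (fun x => h79R x q p) := by
  have key : ∀ x y : ℕ × ℕ → ℝ, (∀ w ∈ (Finset.Icc q p).erase q, x w = y w) →
      h79R x q p ≤ h79R y q p := by
    intro x y hxy
    obtain ⟨π, h1, h2⟩ := exists_lp x h
    have h3 : ∑ w ∈ π, x w - x q = ∑ w ∈ π, y w - y q := by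
      rw [← Finset.add_sum_erase _ _ h1.left_mem, ← Finset.add_sum_erase _ y h1.left_mem]
      have : ∑ w ∈ π.erase q, x w = ∑ w ∈ π.erase q, y w := by
        refine Finset.sum_congr rfl fun w hw => hxy w ?_
        exact Finset.erase_subset_erase _ h1.subset hw
      rw [this]; ring
    unfold h79R
    rw [h2, h3]
    have := le_lp y h1
    linarith
  intro x y hxy
  exact le_antisymm (key x y hxy) (key y x fun w hw => (hxy w hw).symm)

theorem h79_exit (x : ℕ × ℕ → ℝ) {q₀ p : ℕ × ℕ} (h1 : ¬ p ≤ q₀) :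
    ∃ q, q ≤ q₀ ∧ q ≤ p ∧ (q.1 = q₀.1 ∨ q.2 = q₀.2) ∧
      lp x (0, 0) p = lp x (0, 0) q + h79R x q p := by
  have h00 : ∀ s : ℕ × ℕ, ((0, 0) : ℕ × ℕ) ≤ s := fun s => ⟨Nat.zero_le _, Nat.zero_le _⟩
  obtain ⟨π, h2, h3⟩ := exists_lp x (h00 p)
  obtain ⟨q, h4, h5, h6⟩ := h2.exit (h00 q₀) h1
  obtain ⟨π₁, π₂, h7, h8, h9⟩ := h2.split h4
  refine ⟨q, h5, h8.le, h6, ?_⟩
  apply le_antisymm
  · rw [h3, h9, sum_union x h7 h8]
    have e1 := le_lp x h7
    have e2 := le_lp x h8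
    unfold h79R
    linarith
  · have := lp_add_le x (h00 q) h8.le
    unfold h79R
    linarith

/-- the pointwise bound -/
theorem h79_pointwise (x : ℕ × ℕ → ℝ) (hx : ∀ w, 0 < x w) {q₀ p : ℕ × ℕ} (h1 : ¬ p ≤ q₀)
    {θ t L c : ℝ} (hθ : 0 ≤ θ) (ht : 0 ≤ t) (hθt : θ + t ≤ 1)
    (hL : lpm x p < L) (hc : lp x (0, 0) q₀ ≤ c) :
    ∃ q ∈ (Finset.Icc (0, 0) q₀).filter (fun q => q ≤ p ∧ (q.1 = q₀.1 ∨ q.2 = q₀.2)),
      lpm x p - L ≤ (-((θ + t) * L) + t * c) + θ * lp x (0, 0) q + (θ + t) * h79R x q p := by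
  obtain ⟨q, h5, h7, h6, h8⟩ := h79_exit x h1
  have h00 : ∀ s : ℕ × ℕ, ((0, 0) : ℕ × ℕ) ≤ s := fun s => ⟨Nat.zero_le _, Nat.zero_le _⟩
  refine ⟨q, ?_, ?_⟩
  · rw [Finset.mem_filter, Finset.mem_Icc]
    exact ⟨⟨h00 q, h5⟩, h7, h6⟩
  · have e1 : lp x (0, 0) q ≤ c :=
      (lp_mono_rect (fun w => (hx w).le) le_rfl (h00 q) h5).trans hc
    have e2 := hx p
    unfold lpm at hL ⊢
    rw [h8] at hL ⊢
    have e3 : lp x (0, 0) q + h79R x q p - x p - L ≤
        (θ + t) * (lp x (0, 0) q + h79R x q p - x p - L) := by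
      nlinarith
    have e4 : 0 ≤ (θ + t) * x p := by positivity
    have e5 : 0 ≤ t * (c - lp x (0, 0) q) := mul_nonneg ht (by linarith)
    nlinarith

omit [IsProbabilityMeasure P] in
/-- the product of the two exponential moments -/
theorem h79_prod (h : IsExpField P X) {q p : ℕ × ℕ} (hqp : q ≤ p) {θ₁ θ₂ : ℝ} (h2 : 0 ≤ θ₂) :
    ∫⁻ ω, ENNReal.ofReal (Real.exp (θ₁ * lp (fun w => X w ω) (0, 0) q)) *
        ENNReal.ofReal (Real.exp (θ₂ * h79R (fun w => X w ω) q p)) ∂P ≤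
      emom P X θ₁ (0, 0) q * emom P X θ₂ q p := by
  have hind : IndepFun (fun ω => ENNReal.ofReal (Real.exp (θ₁ * lp (fun w => X w ω) (0, 0) q)))
      (fun ω => ENNReal.ofReal (Real.exp (θ₂ * h79R (fun w => X w ω) q p))) P := by
    refine indep_local (S := Finset.Icc (0, 0) q) (T := (Finset.Icc q p).erase q)
      (f := fun x => ENNReal.ofReal (Real.exp (θ₁ * lp x (0, 0) q)))
      (g := fun x => ENNReal.ofReal (Real.exp (θ₂ * h79R x q p))) h.meas h.indep ?_ ?_ ?_ ?_ ?_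
    · rw [Finset.disjoint_left]
      intro w hw hw'
      rw [Finset.mem_erase, Finset.mem_Icc] at hw'
      rw [Finset.mem_Icc] at hw
      exact hw'.1 (le_antisymm hw.2 hw'.2.1)
    · exact ((lp_measurable (0, 0) q).const_mul θ₁).exp.ennreal_ofReal
    · exact ((h79R_measurable q p).const_mul θ₂).exp.ennreal_ofReal
    · intro x y hxy
      have := local_lp (0, 0) q x y hxy
      simp only at this ⊢
      rw [this]
    · intro x y hxy
      have := h79R_local hqp x y hxy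
      simp only at this ⊢
      rw [this]
  have hmX : Measurable (fun ω w => X w ω) := measurable_pi_iff.2 h.meas
  have hm1 : Measurable (fun ω => ENNReal.ofReal
      (Real.exp (θ₁ * lp (fun w => X w ω) (0, 0) q))) :=
    (((lp_measurable (0, 0) q).const_mul θ₁).exp.ennreal_ofReal).comp hmX
  have hm2 : Measurable (fun ω => ENNReal.ofReal
      (Real.exp (θ₂ * h79R (fun w => X w ω) q p))) :=
    (((h79R_measurable q p).const_mul θ₂).exp.ennreal_ofReal).comp hmX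
  have hmul := lintegral_mul_eq_lintegral_mul_lintegral_of_indepFun hm1 hm2 hind
  simp only [Pi.mul_apply] at hmul
  rw [hmul]
  refine mul_le_mul' le_rfl ?_
  unfold emom
  refine lintegral_mono_ae ?_
  filter_upwards [h.ae_pos] with ω hω
  apply ENNReal.ofReal_le_ofReal
  apply Real.exp_le_exp.2
  apply mul_le_mul_of_nonneg_left _ h2
  unfold h79R
  have := hω q
  linarith

/-- `mgf_upper` in a convenient form -/
theorem h79_mgf (h : IsExpField P X) {z w : ℝ} (hz : 0 < z) (hzw : z ≤ w) (hw : w < 1)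
    {p q : ℕ × ℕ} (hpq : p ≤ q) :
    emom P X (w - z) p q ≤ ENNReal.ofReal (Real.exp (((q.1 : ℝ) - p.1 + 1) * hC z w +
      ((q.2 : ℝ) - p.2 + 1) * hR z w)) := by
  have := mgf_upper h hz hzw hw p (q.1 - p.1) (q.2 - p.2)
  rw [Nat.add_sub_cancel' hpq.1, Nat.add_sub_cancel' hpq.2, Nat.cast_sub hpq.1,
    Nat.cast_sub hpq.2] at this
  exact this

theorem h79_hC_nonneg {z w : ℝ} (hz : 0 < z) (hzw : z ≤ w) : 0 ≤ hC z w := by
  unfold hC
  exact Real.log_nonneg ((one_le_div hz).2 hzw)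

theorem h79_hR_nonneg {z w : ℝ} (hzw : z ≤ w) (hw : w < 1) : 0 ≤ hR z w := by
  unfold hR
  exact Real.log_nonneg ((one_le_div (by linarith)).2 (by linarith))

/-- the total exponent, top side -/
theorem h79_exponent_top {a b l r z w N ε t C hc hr hc2 hr2 p1 p2 i j : ℝ}
    (hb : 0 < b) (hl : 0 < l) (hN : 0 ≤ N) (ht : 0 < t) (hC : 0 < C)
    (hhc : 0 ≤ hc) (hhr : 0 ≤ hr) (hhc2 : hc2 ≤ hc + C * t ^ 2)
    (hhr2 : hr2 ≤ hr + t * (l / b) + C * t ^ 2) (hp1 : p1 ≤ a * N) (hp2 : p2 ≤ b * N)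
    (hi : 0 ≤ i) (hip : i ≤ p1) (hjp : j ≤ p2) (hj : b * r * N - 1 ≤ j) (hj0 : 0 ≤ j)
    (hsmall : C * t * (a + b) ≤ ε / 2) :
    (-((w - z + t) * (l * N)) + t * ((r * l - ε) * N)) + ((i + 1) * hc + (j + 1) * hr) +
        ((p1 - i + 1) * hc2 + (p2 - j + 1) * hr2) ≤
      -(N * ((w - z) * l - a * hc - b * hr + ε * t / 2)) +
        (2 * (hc + hr) + 4 * C * t ^ 2 + 2 * t * (l / b)) := by
  have e1 : (p1 - i + 1) * hc2 ≤ (p1 - i + 1) * (hc + C * t ^ 2) :=
    mul_le_mul_of_nonneg_left hhc2 (by linarith)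
  have e2 : (p2 - j + 1) * hr2 ≤ (p2 - j + 1) * (hr + t * (l / b) + C * t ^ 2) :=
    mul_le_mul_of_nonneg_left hhr2 (by linarith)
  have e3 : (p1 + 2) * hc ≤ (a * N + 2) * hc := mul_le_mul_of_nonneg_right (by linarith) hhc
  have e4 : (p2 + 2) * hr ≤ (b * N + 2) * hr := mul_le_mul_of_nonneg_right (by linarith) hhr
  have hCt : 0 < C * t ^ 2 := by positivity
  have e5 : (p1 - i + 1) * (C * t ^ 2) ≤ (a * N + 2) * (C * t ^ 2) :=
    mul_le_mul_of_nonneg_right (by linarith) hCt.le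
  have e6 : (p2 - j + 1) * (C * t ^ 2) ≤ (b * N + 2) * (C * t ^ 2) :=
    mul_le_mul_of_nonneg_right (by linarith) hCt.le
  have htl : 0 ≤ t * (l / b) := by positivity
  have e7 : (p2 - j + 1) * (t * (l / b)) ≤ (b * N - b * r * N + 2) * (t * (l / b)) :=
    mul_le_mul_of_nonneg_right (by linarith) htl
  have e8 : (b * N - b * r * N + 2) * (t * (l / b)) = (1 - r) * N * t * l + 2 * t * (l / b) := by
    field_simp
  have e9 : C * t ^ 2 * ((a + b) * N) ≤ ε / 2 * (t * N) := by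
    have : C * t * (a + b) * (t * N) ≤ ε / 2 * (t * N) :=
      mul_le_mul_of_nonneg_right hsmall (by positivity)
    linarith [this]
  nlinarith [e1, e2, e3, e4, e5, e6, e7, e8, e9]


theorem h79_pt1 {a b : ℝ} (ha : 0 ≤ a) (N : ℕ) :
    ((pt a b N).1 : ℝ) ≤ a * N ∧ a * N - 1 ≤ ((pt a b N).1 : ℝ) := by
  have h0 : 0 ≤ a * N := by positivity
  have h1 := Nat.ceil_lt_add_one h0
  have h2 := Nat.le_ceil (a * N)
  unfold pt
  rcases Nat.eq_zero_or_pos ⌈a * N⌉₊ with h | h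
  · rw [h] at h2 ⊢
    simp only [Nat.cast_zero] at h2
    simp only [Nat.zero_sub, Nat.cast_zero]
    constructor <;> linarith
  · have h3 : ((⌈a * N⌉₊ - 1 : ℕ) : ℝ) = (⌈a * N⌉₊ : ℝ) - 1 := by
      rw [Nat.cast_sub h]; simp
    simp only [h3]
    constructor <;> linarith

theorem h79_pt2 {a b : ℝ} (hb : 0 ≤ b) (N : ℕ) :
    ((pt a b N).2 : ℝ) ≤ b * N ∧ b * N - 1 ≤ ((pt a b N).2 : ℝ) :=
  h79_pt1 (a := b) (b := a) hb N

/-- polynomially many terms -/
theorem h79_poly {a b K c : ℝ} (ha : 0 < a) (hb : 0 < b) (hc : 0 < c) :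
    ∀ᶠ N : ℕ in atTop, (a * N + 1) * (b * N + 1) * Real.exp K ≤ Real.exp (c * N) := by
  have h1 := Real.tendsto_pow_mul_exp_neg_atTop_nhds_zero 2
  have h2 : Tendsto (fun N : ℕ => c * (N : ℝ)) atTop atTop :=
    (tendsto_natCast_atTop_atTop).const_mul_atTop hc
  have h3 := h1.comp h2
  have hpos : 0 < c ^ 2 / ((a + 1) * (b + 1) * Real.exp K) := by positivity
  filter_upwards [h3.eventually (gt_mem_nhds hpos), eventually_ge_atTop 1] with N hN hN1
  have hN1' : (1 : ℝ) ≤ N := by exact_mod_cast hN1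
  simp only [Function.comp] at hN
  rw [lt_div_iff₀ (by positivity), Real.exp_neg] at hN
  have e1 : (c * (N : ℝ)) ^ 2 * (Real.exp (c * N))⁻¹ * ((a + 1) * (b + 1) * Real.exp K) =
      c ^ 2 * (((a + 1) * N) * ((b + 1) * N) * Real.exp K * (Real.exp (c * N))⁻¹) := by ring
  rw [e1] at hN
  have e2 : ((a + 1) * N) * ((b + 1) * N) * Real.exp K * (Real.exp (c * N))⁻¹ < 1 := by
    by_contra hcon
    push Not at hcon
    have : c ^ 2 * 1 ≤ c ^ 2 * (((a + 1) * N) * ((b + 1) * N) * Real.exp K *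
      (Real.exp (c * N))⁻¹) := mul_le_mul_of_nonneg_left hcon (by positivity)
    linarith
  rw [← div_eq_mul_inv, div_lt_one (Real.exp_pos _)] at e2
  refine le_trans ?_ e2.le
  apply mul_le_mul_of_nonneg_right _ (Real.exp_pos K).le
  apply mul_le_mul _ _ (by positivity) (by positivity)
  · nlinarith
  · nlinarith

theorem h79_term (h : IsExpField P X) {z w z₂ w₂ t : ℝ} (hz : 0 < z) (hzw : z < w) (hw : w < 1)
    (hz₂ : 0 < z₂) (hw₂ : w₂ < 1) (ht : 0 < t) (hzw₂ : w₂ - z₂ = w - z + t)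
    {p q : ℕ × ℕ} (hqp : q ≤ p) (K : ℝ) :
    ∫⁻ ω, ENNReal.ofReal (Real.exp (K + (w - z) * lp (fun w => X w ω) (0, 0) q +
        (w - z + t) * h79R (fun w => X w ω) q p)) ∂P ≤
      ENNReal.ofReal (Real.exp (K + ((q.1 + 1) * hC z w + (q.2 + 1) * hR z w) +
        ((p.1 - q.1 + 1) * hC z₂ w₂ + (p.2 - q.2 + 1) * hR z₂ w₂))) := by
  have h00 : ∀ s : ℕ × ℕ, ((0, 0) : ℕ × ℕ) ≤ s := fun s => ⟨Nat.zero_le _, Nat.zero_le _⟩
  have e1 : ∀ ω, ENNReal.ofReal (Real.exp (K + (w - z) * lp (fun w => X w ω) (0, 0) q +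
        (w - z + t) * h79R (fun w => X w ω) q p)) = ENNReal.ofReal (Real.exp K) *
      (ENNReal.ofReal (Real.exp ((w - z) * lp (fun w => X w ω) (0, 0) q)) *
        ENNReal.ofReal (Real.exp ((w - z + t) * h79R (fun w => X w ω) q p))) := by
    intro ω
    rw [← ENNReal.ofReal_mul (Real.exp_pos _).le, ← ENNReal.ofReal_mul (Real.exp_pos _).le,
      ← Real.exp_add, ← Real.exp_add, add_assoc]
  simp_rw [e1]
  rw [lintegral_const_mul' _ _ ENNReal.ofReal_ne_top]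
  have e2 := h79_prod h hqp (θ₁ := w - z) (θ₂ := w - z + t) (by linarith)
  have e3 := h79_mgf h hz hzw.le hw (h00 q)
  have e4 := h79_mgf h hz₂ (by linarith) hw₂ hqp
  rw [hzw₂] at e4
  calc ENNReal.ofReal (Real.exp K) * _ ≤ ENNReal.ofReal (Real.exp K) *
        (emom P X (w - z) (0, 0) q * emom P X (w - z + t) q p) := mul_le_mul' le_rfl e2
    _ ≤ ENNReal.ofReal (Real.exp K) * (_ * _) := mul_le_mul' le_rfl (mul_le_mul' e3 e4)
    _ = _ := by
      rw [← ENNReal.ofReal_mul (Real.exp_pos _).le, ← ENNReal.ofReal_mul (Real.exp_pos _).le,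
        ← Real.exp_add, ← Real.exp_add]
      congr 2
      push_cast
      ring

theorem h79_hC_taylor {z w : ℝ} (hz : 0 < z) (hw : 0 < w) (A B : ℝ) :
    ∃ C > 0, ∃ t₀ > 0, ∀ t, |t| ≤ t₀ → 0 < z + A * t ∧ 0 < w + B * t ∧
      hC (z + A * t) (w + B * t) ≤ hC z w + t * (B / w - A / z) + C * t ^ 2 := by
  refine ⟨2 * (A / z) ^ 2 + 1, by positivity, min (z / (2 * (|A| + 1))) (w / (2 * (|B| + 1))),
    lt_min (by positivity) (by positivity), ?_⟩
  intro t ht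
  have h1 : |t| ≤ z / (2 * (|A| + 1)) := ht.trans (min_le_left _ _)
  have h2 : |t| ≤ w / (2 * (|B| + 1)) := ht.trans (min_le_right _ _)
  rw [le_div_iff₀ (by positivity)] at h1 h2
  have h3 : |A * t| ≤ z / 2 := by
    rw [abs_mul]; nlinarith [abs_nonneg t, abs_nonneg A]
  have h4 : |B * t| ≤ w / 2 := by
    rw [abs_mul]; nlinarith [abs_nonneg t, abs_nonneg B]
  have h5 := abs_le.1 h3
  have h6 := abs_le.1 h4
  have hz' : 0 < z + A * t := by linarith
  have hw' : 0 < w + B * t := by linarith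
  refine ⟨hz', hw', ?_⟩
  unfold hC
  rw [Real.log_div hw'.ne' hz'.ne', Real.log_div hw.ne' hz.ne']
  have e1 : Real.log (w + B * t) - Real.log w ≤ B * t / w := by
    rw [← Real.log_div hw'.ne' hw.ne']
    have := Real.log_le_sub_one_of_pos (show 0 < (w + B * t) / w by positivity)
    have e : (w + B * t) / w - 1 = B * t / w := by field_simp; ring
    linarith
  have e2 : Real.log (z + A * t) - Real.log z ≥ A * t / z - 2 * (A * t / z) ^ 2 := by
    rw [← Real.log_div hz'.ne' hz.ne']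
    have h7 := Real.one_sub_inv_le_log_of_pos (show 0 < (z + A * t) / z by positivity)
    have e : 1 - ((z + A * t) / z)⁻¹ = A * t / (z + A * t) := by
      rw [inv_div]; field_simp; ring
    rw [e] at h7
    have h8 : A * t / z - 2 * (A * t / z) ^ 2 ≤ A * t / (z + A * t) := by
      rw [le_div_iff₀ hz']
      have e3 : (A * t / z - 2 * (A * t / z) ^ 2) * (z + A * t) =
          A * t - (A * t / z) ^ 2 * (z + 2 * (A * t)) := by
        field_simp; ring
      rw [e3]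
      have : 0 ≤ (A * t / z) ^ 2 * (z + 2 * (A * t)) := mul_nonneg (sq_nonneg _) (by linarith)
      linarith
    linarith
  have e4 : (2 * (A / z) ^ 2 + 1) * t ^ 2 = 2 * (A * t / z) ^ 2 + t ^ 2 := by ring
  have e5 : t * (B / w - A / z) = B * t / w - A * t / z := by ring
  rw [e4, e5]
  nlinarith [sq_nonneg t]

theorem h79_hR_taylor {z w : ℝ} (hz : z < 1) (hw : w < 1) (A B : ℝ) :
    ∃ C > 0, ∃ t₀ > 0, ∀ t, |t| ≤ t₀ → z + A * t < 1 ∧ w + B * t < 1 ∧
      hR (z + A * t) (w + B * t) ≤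
        hR z w + t * (B / (1 - w) - A / (1 - z)) + C * t ^ 2 := by
  obtain ⟨C, hC0, t₀, ht₀, H⟩ := h79_hC_taylor (z := 1 - w) (w := 1 - z) (by linarith)
    (by linarith) (-B) (-A)
  refine ⟨C, hC0, t₀, ht₀, fun t ht => ?_⟩
  obtain ⟨h1, h2, h3⟩ := H t ht
  refine ⟨by linarith, by linarith, ?_⟩
  have e1 : hC (1 - w + -B * t) (1 - z + -A * t) = hR (z + A * t) (w + B * t) := by
    unfold hC hR; congr 2 <;> ring
  have e2 : hC (1 - w) (1 - z) = hR z w := rfl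
  rw [e1, e2] at h3
  have e3 : t * (-A / (1 - z) - -B / (1 - w)) = t * (B / (1 - w) - A / (1 - z)) := by ring
  rw [e3] at h3
  exact h3

theorem h79_choice {a b l z w ε : ℝ} (ha : 0 < a) (hb : 0 < b) (hε : 0 < ε) (hz : 0 < z)
    (hzw : z < w) (hw : w < 1) (hzl : a / z + b / (1 - z) = l)
    (hwl : a / w + b / (1 - w) = l) :
    ∃ C t z₂ w₂ z₃ w₃ : ℝ, 0 < C ∧ 0 < t ∧ w - z + t ≤ 1 ∧ C * t * (a + b) ≤ ε / 2 ∧
      (0 < z₂ ∧ w₂ < 1 ∧ w₂ - z₂ = w - z + t ∧ hC z₂ w₂ ≤ hC z w + C * t ^ 2 ∧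
        hR z₂ w₂ ≤ hR z w + t * (l / b) + C * t ^ 2) ∧
      (0 < z₃ ∧ w₃ < 1 ∧ w₃ - z₃ = w - z + t ∧
        hC z₃ w₃ ≤ hC z w + t * (l / a) + C * t ^ 2 ∧ hR z₃ w₃ ≤ hR z w + C * t ^ 2) := by
  have hw0 : 0 < w := hz.trans hzw
  have hz1 : z < 1 := hzw.trans hw
  have hd1 : 0 < 1 / z - 1 / w := by
    have := one_div_lt_one_div_of_lt hz hzw
    linarith
  have hd2 : 0 < 1 / (1 - w) - 1 / (1 - z) := by
    have := one_div_lt_one_div_of_lt (show 0 < 1 - w by linarith) (show 1 - w < 1 - z by linarith)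
    linarith
  have hrel : a * (1 / z - 1 / w) = b * (1 / (1 - w) - 1 / (1 - z)) := by
    simp only [mul_sub, mul_one_div]
    linarith
  -- top side
  obtain ⟨lam, hlam1⟩ : ∃ lam : ℝ, lam * (1 / z - 1 / w) = 1 / w :=
    ⟨(1 / w) / (1 / z - 1 / w), div_mul_cancel₀ _ hd1.ne'⟩
  have hcoef1 : (1 + lam) / w - lam / z = 0 := by
    have : (1 + lam) / w - lam / z = 1 / w - lam * (1 / z - 1 / w) := by ring
    rw [this, hlam1]; ring
  have hcoef2 : (1 + lam) / (1 - w) - lam / (1 - z) = l / b := by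
    have e : (1 + lam) / (1 - w) - lam / (1 - z) =
        1 / (1 - w) + lam * (1 / (1 - w) - 1 / (1 - z)) := by ring
    have e1 : b * (lam * (1 / (1 - w) - 1 / (1 - z))) = a * (1 / w) := by
      rw [← hlam1]
      calc b * (lam * (1 / (1 - w) - 1 / (1 - z))) =
          lam * (b * (1 / (1 - w) - 1 / (1 - z))) := by ring
        _ = a * (lam * (1 / z - 1 / w)) := by rw [← hrel]; ring
    rw [e, eq_div_iff hb.ne', ← hwl, add_mul]
    have e2 : lam * (1 / (1 - w) - 1 / (1 - z)) * b = a * (1 / w) := by rw [← e1]; ring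
    rw [e2]; ring
  obtain ⟨C₁, hC₁, t₁, ht₁, H₁⟩ := h79_hC_taylor hz hw0 lam (1 + lam)
  obtain ⟨C₂, hC₂, t₂, ht₂, H₂⟩ := h79_hR_taylor hz1 hw lam (1 + lam)
  rw [hcoef1] at H₁
  rw [hcoef2] at H₂
  -- right side
  obtain ⟨mu, hmu1⟩ : ∃ mu : ℝ, mu * (1 / (1 - w) - 1 / (1 - z)) = -(1 / (1 - z)) :=
    ⟨-((1 / (1 - z)) / (1 / (1 - w) - 1 / (1 - z))), by
      rw [neg_mul, div_mul_cancel₀ _ hd2.ne']⟩
  have hcoef3 : mu / (1 - w) - (mu - 1) / (1 - z) = 0 := by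
    have : mu / (1 - w) - (mu - 1) / (1 - z) =
        mu * (1 / (1 - w) - 1 / (1 - z)) + 1 / (1 - z) := by ring
    rw [this, hmu1]; ring
  have hcoef4 : mu / w - (mu - 1) / z = l / a := by
    have e : mu / w - (mu - 1) / z = 1 / z - mu * (1 / z - 1 / w) := by ring
    have e1 : a * (mu * (1 / z - 1 / w)) = -(b * (1 / (1 - z))) := by
      calc a * (mu * (1 / z - 1 / w)) = mu * (a * (1 / z - 1 / w)) := by ring
        _ = b * (mu * (1 / (1 - w) - 1 / (1 - z))) := by rw [hrel]; ring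
        _ = _ := by rw [hmu1]; ring
    rw [e, eq_div_iff ha.ne', ← hzl, sub_mul]
    have e2 : mu * (1 / z - 1 / w) * a = -(b * (1 / (1 - z))) := by rw [← e1]; ring
    rw [e2]; ring
  obtain ⟨C₃, hC₃, t₃, ht₃, H₃⟩ := h79_hC_taylor hz hw0 (mu - 1) mu
  obtain ⟨C₄, hC₄, t₄, ht₄, H₄⟩ := h79_hR_taylor hz1 hw (mu - 1) mu
  rw [hcoef4] at H₃
  rw [hcoef3] at H₄
  -- common constants
  obtain ⟨C, hCdef⟩ : ∃ C : ℝ, C = C₁ + C₂ + C₃ + C₄ := ⟨_, rfl⟩
  have hC0 : 0 < C := by rw [hCdef]; positivity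
  obtain ⟨t, htdef⟩ : ∃ t : ℝ, t = min (min (min t₁ t₂) (min t₃ t₄))
      (min (ε / (2 * C * (a + b))) (1 - (w - z))) := ⟨_, rfl⟩
  have ht : 0 < t := by
    have h5 : 0 < ε / (2 * C * (a + b)) := by positivity
    have h6 : 0 < 1 - (w - z) := by linarith
    rw [htdef]
    exact lt_min (lt_min (lt_min ht₁ ht₂) (lt_min ht₃ ht₄)) (lt_min h5 h6)
  have htt₁ : t ≤ t₁ :=
    htdef.le.trans ((min_le_left _ _).trans ((min_le_left _ _).trans (min_le_left _ _)))
  have htt₂ : t ≤ t₂ :=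
    htdef.le.trans ((min_le_left _ _).trans ((min_le_left _ _).trans (min_le_right _ _)))
  have htt₃ : t ≤ t₃ :=
    htdef.le.trans ((min_le_left _ _).trans ((min_le_right _ _).trans (min_le_left _ _)))
  have htt₄ : t ≤ t₄ :=
    htdef.le.trans ((min_le_left _ _).trans ((min_le_right _ _).trans (min_le_right _ _)))
  have htε : t ≤ ε / (2 * C * (a + b)) :=
    htdef.le.trans ((min_le_right _ _).trans (min_le_left _ _))
  have hθ1 : w - z + t ≤ 1 := by
    have : t ≤ 1 - (w - z) := htdef.le.trans ((min_le_right _ _).trans (min_le_right _ _))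
    linarith
  have hsmall : C * t * (a + b) ≤ ε / 2 := by
    rw [le_div_iff₀ (by positivity)] at htε
    linarith
  have ha1 : ∀ s, t ≤ s → |t| ≤ s := fun s hs => by rw [abs_of_pos ht]; exact hs
  obtain ⟨K1a, K1b, K1⟩ := H₁ t (ha1 _ htt₁)
  obtain ⟨K2a, K2b, K2⟩ := H₂ t (ha1 _ htt₂)
  obtain ⟨K3a, K3b, K3⟩ := H₃ t (ha1 _ htt₃)
  obtain ⟨K4a, K4b, K4⟩ := H₄ t (ha1 _ htt₄)
  have hCC : ∀ D, D ≤ C → D * t ^ 2 ≤ C * t ^ 2 := fun D hD =>
    mul_le_mul_of_nonneg_right hD (by positivity)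
  have L1 := hCC C₁ (by linarith)
  have L2 := hCC C₂ (by linarith)
  have L3 := hCC C₃ (by linarith)
  have L4 := hCC C₄ (by linarith)
  exact ⟨C, t, z + lam * t, w + (1 + lam) * t, z + (mu - 1) * t, w + mu * t, hC0, ht, hθ1,
    hsmall, ⟨K1a, K2b, by ring, by linarith, by linarith⟩,
    ⟨K3a, K4b, by ring, by linarith, by linarith⟩⟩

omit [IsProbabilityMeasure P] in
/-- the sum over the exit points -/
theorem h79_sum (h : IsExpField P X) {q₀ p : ℕ × ℕ} (hnle : ¬ p ≤ q₀) {θ t L c K : ℝ}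
    (hθ : 0 ≤ θ) (ht : 0 ≤ t) (hθt : θ + t ≤ 1)
    (hK : ∀ q, q ≤ q₀ → q ≤ p → (q.1 = q₀.1 ∨ q.2 = q₀.2) →
      ∫⁻ ω, ENNReal.ofReal (Real.exp ((-((θ + t) * L) + t * c) +
        θ * lp (fun w => X w ω) (0, 0) q + (θ + t) * h79R (fun w => X w ω) q p)) ∂P ≤
      ENNReal.ofReal K) :
    ∫⁻ ω in {ω | lpm (fun w => X w ω) p < L ∧ lp (fun w => X w ω) (0, 0) q₀ ≤ c},
        ENNReal.ofReal (Real.exp (lpm (fun w => X w ω) p - L)) ∂P ≤
      ((q₀.1 + 1) * (q₀.2 + 1) : ℕ) * ENNReal.ofReal K := by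
  have hmX : Measurable (fun ω w => X w ω) := measurable_pi_iff.2 h.meas
  have hmlpm : Measurable (fun ω => lpm (fun w => X w ω) p) :=
    ((lp_measurable (0, 0) p).comp hmX).sub (h.meas p)
  have hmlp : Measurable (fun ω => lp (fun w => X w ω) (0, 0) q₀) :=
    (lp_measurable (0, 0) q₀).comp hmX
  have hmE : MeasurableSet {ω | lpm (fun w => X w ω) p < L ∧
      lp (fun w => X w ω) (0, 0) q₀ ≤ c} :=
    (measurableSet_lt hmlpm measurable_const).inter (measurableSet_le hmlp measurable_const)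
  obtain ⟨S, hS⟩ : ∃ S : Finset (ℕ × ℕ), S =
    (Finset.Icc (0, 0) q₀).filter (fun q => q ≤ p ∧ (q.1 = q₀.1 ∨ q.2 = q₀.2)) := ⟨_, rfl⟩
  have step1 : ∫⁻ ω in {ω | lpm (fun w => X w ω) p < L ∧
      lp (fun w => X w ω) (0, 0) q₀ ≤ c},
        ENNReal.ofReal (Real.exp (lpm (fun w => X w ω) p - L)) ∂P ≤
      ∫⁻ ω, ∑ q ∈ S, ENNReal.ofReal (Real.exp ((-((θ + t) * L) + t * c) +
        θ * lp (fun w => X w ω) (0, 0) q + (θ + t) * h79R (fun w => X w ω) q p)) ∂P := by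
    refine le_trans ?_ (setLIntegral_le_lintegral {ω | lpm (fun w => X w ω) p < L ∧
      lp (fun w => X w ω) (0, 0) q₀ ≤ c} _)
    refine lintegral_mono_ae ?_
    filter_upwards [ae_restrict_mem hmE, ae_restrict_of_ae h.ae_pos] with ω hω1 hω2
    obtain ⟨q, hq, hb⟩ := h79_pointwise (fun w => X w ω) hω2 hnle hθ ht hθt hω1.1 hω1.2
    rw [← hS] at hq
    refine le_trans (ENNReal.ofReal_le_ofReal (Real.exp_le_exp.2 hb)) ?_
    exact Finset.single_le_sum (f := fun q => ENNReal.ofReal (Real.exp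
      ((-((θ + t) * L) + t * c) + θ * lp (fun w => X w ω) (0, 0) q +
        (θ + t) * h79R (fun w => X w ω) q p))) (fun _ _ => zero_le) hq
  refine step1.trans ?_
  rw [lintegral_finsetSum']
  swap
  · intro q _
    refine Measurable.aemeasurable ?_
    refine (Measurable.exp ?_).ennreal_ofReal
    exact (measurable_const.add (((lp_measurable (0, 0) q).comp hmX).const_mul _)).add
      (((h79R_measurable q p).comp hmX).const_mul _)
  have step2 : ∀ q ∈ S, ∫⁻ ω, ENNReal.ofReal (Real.exp ((-((θ + t) * L) + t * c) +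
        θ * lp (fun w => X w ω) (0, 0) q + (θ + t) * h79R (fun w => X w ω) q p)) ∂P ≤
      ENNReal.ofReal K := by
    intro q hq
    rw [hS, Finset.mem_filter, Finset.mem_Icc] at hq
    exact hK q hq.1.2 hq.2.1 hq.2.2
  refine (Finset.sum_le_sum step2).trans ?_
  rw [Finset.sum_const, nsmul_eq_mul]
  refine mul_le_mul' ?_ le_rfl
  have h1 : S.card ≤ (Finset.Icc ((0, 0) : ℕ × ℕ) q₀).card := by
    rw [hS]; exact Finset.card_filter_le _ _
  have h2 : (Finset.Icc ((0, 0) : ℕ × ℕ) q₀).card = (q₀.1 + 1) * (q₀.2 + 1) := by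
    rw [Finset.card_Icc_prod]; simp
  rw [h2] at h1
  exact_mod_cast h1

theorem exit_bound (h : IsExpField P X) {a b l r : ℝ} (ha : 0 < a) (hb : 0 < b)
    (hl : shp a b < l) (hr : 0 < r) (hr1 : r < 1) {ε : ℝ} (hε : 0 < ε) :
    ∃ c > 0, ∀ᶠ N : ℕ in atTop,
      ∫⁻ ω in {ω | lpm (fun w => X w ω) (pt a b N) < l * N ∧
          lp (fun w => X w ω) (0, 0) (pt (a * r) (b * r) N) ≤ (r * l - ε) * N},
        ENNReal.ofReal (Real.exp (lpm (fun w => X w ω) (pt a b N) - l * N)) ∂P ≤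
      ENNReal.ofReal (Real.exp (-(N * (rate a b l + c)))) := by
  obtain ⟨hz, hzw, hw, hzl, hwl⟩ := params ha hb hl
  have hrate : rate a b l = (wl a b l - zl a b l) * l - a * hC (zl a b l) (wl a b l) -
      b * hR (zl a b l) (wl a b l) := rfl
  rw [hrate]
  clear hrate
  generalize zl a b l = z at hz hzw hzl ⊢
  generalize wl a b l = w at hzw hw hwl ⊢
  have hl0 : 0 < l := lt_of_le_of_lt (by unfold shp; positivity) hl
  obtain ⟨C, t, z₂, w₂, z₃, w₃, hC0, ht, hθ1, hsmall, ⟨hz₂, hw₂, hzw₂, hc₂, hr₂⟩,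
    ⟨hz₃, hw₃, hzw₃, hc₃, hr₃⟩⟩ := h79_choice ha hb hε hz hzw hw hzl hwl
  have hhc := h79_hC_nonneg hz hzw.le
  have hhr := h79_hR_nonneg hzw.le hw
  have hla : 0 < l / a := by positivity
  have hlb : 0 < l / b := by positivity
  obtain ⟨K, hK⟩ : ∃ K : ℝ, K = 2 * (hC z w + hR z w) + 4 * C * t ^ 2 + 2 * t * (l / b) +
    2 * t * (l / a) := ⟨_, rfl⟩
  refine ⟨ε * t / 4, by positivity, ?_⟩
  have hlarge : ∀ᶠ N : ℕ in atTop, 1 < a * (1 - r) * N := by
    have h2 : Tendsto (fun N : ℕ => a * (1 - r) * (N : ℝ)) atTop atTop :=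
      (tendsto_natCast_atTop_atTop).const_mul_atTop (mul_pos ha (by linarith))
    exact h2.eventually_gt_atTop 1
  filter_upwards [hlarge, h79_poly (a := a * r) (b := b * r) (K := K) (c := ε * t / 4)
    (by positivity) (by positivity) (by positivity)] with N hN1 hN2
  have hp1 := h79_pt1 (a := a) (b := b) ha.le N
  have hp2 := h79_pt2 (a := a) (b := b) hb.le N
  have hq1 := h79_pt1 (a := a * r) (b := b * r) (by positivity) N
  have hq2 := h79_pt2 (a := a * r) (b := b * r) (by positivity) N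
  obtain ⟨p, hp⟩ : ∃ p, p = pt a b N := ⟨_, rfl⟩
  obtain ⟨q₀, hq₀⟩ : ∃ q₀, q₀ = pt (a * r) (b * r) N := ⟨_, rfl⟩
  rw [← hp] at hp1 hp2 ⊢
  rw [← hq₀] at hq1 hq2 ⊢
  have hnle : ¬ p ≤ q₀ := by
    intro hcon
    have : (p.1 : ℝ) ≤ q₀.1 := by exact_mod_cast hcon.1
    nlinarith [hp1.2, hq1.1]
  have hN0 : (0 : ℝ) ≤ N := Nat.cast_nonneg N
  have hsum := h79_sum h hnle (θ := w - z) (t := t) (L := l * N) (c := (r * l - ε) * N)
    (K := Real.exp (-(N * ((w - z) * l - a * hC z w - b * hR z w + ε * t / 2)) + K))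
    (by linarith) ht.le hθ1 ?_
  swap
  · intro q hq0 hqp hqq
    have c1 : (q.1 : ℝ) ≤ p.1 := by exact_mod_cast hqp.1
    have c2 : (q.2 : ℝ) ≤ p.2 := by exact_mod_cast hqp.2
    have c3 : (0 : ℝ) ≤ q.1 := Nat.cast_nonneg _
    have c4 : (0 : ℝ) ≤ q.2 := Nat.cast_nonneg _
    rcases hqq with hqq | hqq
    · -- right side
      refine (h79_term h hz hzw hw hz₃ hw₃ ht hzw₃ hqp _).trans
        (ENNReal.ofReal_le_ofReal (Real.exp_le_exp.2 ?_))
      have c5 : a * r * N - 1 ≤ q.1 := by rw [hqq]; exact hq1.2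
      have := h79_exponent_top (z := z) (w := w) (ε := ε) (r := r) ha hl0 hN0 ht hC0 hhr hhc
        hr₃ hc₃ hp2.1 hp1.1 c4 c2 c1 c5 c3 (by linarith)
      have hh := mul_pos ht hlb
      rw [hK]
      linarith
    · -- top side
      refine (h79_term h hz hzw hw hz₂ hw₂ ht hzw₂ hqp _).trans
        (ENNReal.ofReal_le_ofReal (Real.exp_le_exp.2 ?_))
      have c5 : b * r * N - 1 ≤ q.2 := by rw [hqq]; exact hq2.2
      have := h79_exponent_top (z := z) (w := w) (ε := ε) (r := r) hb hl0 hN0 ht hC0 hhc hhr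
        hc₂ hr₂ hp1.1 hp2.1 c3 c1 c2 c5 c4 hsmall
      have hh := mul_pos ht hla
      rw [hK]
      linarith
  refine hsum.trans ?_
  have hcard : (((q₀.1 + 1) * (q₀.2 + 1) : ℕ) : ℝ) ≤ (a * r * N + 1) * (b * r * N + 1) := by
    push_cast
    apply mul_le_mul (by linarith [hq1.1]) (by linarith [hq2.1]) (by positivity)
    have := mul_nonneg (mul_nonneg ha.le hr.le) hN0
    linarith
  rw [← ENNReal.ofReal_natCast, ← ENNReal.ofReal_mul (Nat.cast_nonneg _)]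
  apply ENNReal.ofReal_le_ofReal
  refine (mul_le_mul_of_nonneg_right hcard (Real.exp_pos _).le).trans ?_
  rw [Real.exp_add, mul_comm (Real.exp (-_)), ← mul_assoc]
  refine (mul_le_mul_of_nonneg_right hN2 (Real.exp_pos _).le).trans ?_
  rw [← Real.exp_add]
  apply Real.exp_le_exp.2
  linarith

end Helper97.LPP
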